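import Pool.Agent.KS6_6.MD.Lev

/-!
# Max-3DM under every `L_p` norm, `1 < p < ∞`, in every fixed dimension at least two: strongly NP-hard,
# no fully polynomial-time approximation scheme

For `p = 2` this is the Euclidean problem.  The instances have natural coordinates which are
polynomially bounded in the number `N` of points, and it is already NP-hard to find a partition with at
least `1 - N ^ (-k)` times the maximum value; so there is neither an exact algorithm, nor a
pseudopolynomial one, nor an approximation scheme whose running time is polynomial in `1 / ε`, unless
`P = NP`.  For rational `p` the decision version is NP-hard under many-one reductions, again with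
polynomially bounded numbers (for irrational `p` the values cannot be compared with rational bounds by
any fixed algorithm known in advance, which is why the search version is the right one).

Method.  Exact cover by 3-sets is reduced to a numerical matching problem with polynomially bounded
numbers (library module `H557R2/Tri/Comb`).  Its numbers are the heights of points in three clusters
near the corners of a huge triangle.  In order to serve all norms `L_p` at once the sides of the
triangle are `(8, 4)`, `(-5, -10)`, `(-3, 6)` times a large number: every side is a rational multiple of
`(1, 2)`, up to the symmetries of the norm, so that the sides have the ratio `4 : 5 : 3` and the three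
curvatures the ratio `4 ^ (-3) : 5 ^ (-3) : 3 ^ (-3)` in all these norms.  With displacements in the
directions `(0, 2)`, `(4, 6)`, `(8, -4)` the second order part of the perimeter is a separable part
minus `φ''(1/2) / (2 L)` times the square of the sum of the three heights, `φ(t) = (1 + t ^ p) ^ (1 / p)`.
For rational `p` the constants `φ(1/2)`, `φ'(1/2)`, `φ''(1/2)` are algebraic; their approximations, which
are needed for the bound of the decision version, are computed from integer polynomials.
-/

set_option autoImplicit false

namespace Pool.Agent.Results.MP_b24d90_lc.LpNormsNoFptas

open Pool.Agent.NPC Pool.Agent.H557R2.Tri Pool.Agent.KS6_6.MD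

/-- **Max-3DM is strongly NP-hard and has no fully polynomial-time approximation scheme (unless
`P = NP`), for every `L_p` norm with `1 < p < ∞` (`p` real) in every fixed dimension `s ≥ 2`.**
(1) For all large `k`: computing partitions with at least `1 - N ^ (-k)` times the maximum value is
NP-hard for `N` points with natural coordinates `≤ N ^ k`; in particular a polynomial-time algorithm for
this would give `P = NP`.
(2) A polynomial-time algorithm for optimal partitions, or a fully polynomial-time approximation
scheme, would give `P = NP`.
(3) If `p` is rational then the decision version is NP-hard, also for coordinates and bounds which are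
polynomially bounded.
(4) For `p = 2` the distance is the Euclidean distance. -/
theorem result (p : ℝ) (hp : 1 < p) (s : ℕ) (hs : 2 ≤ s) :
    (∃ k0 : ℕ, ∀ k : ℕ, k0 ≤ k → NearHard p s k ∧ (AlgNear p s k → ∀ L, InNP L → InP L)) ∧
    (AlgOpt p s ∨ FPTAS p s → ∀ L, InNP L → InP L) ∧
    (∀ r : ℚ, p = r → NPHardP (MaxP p s) ∧ ∃ k : ℕ, NPHardP (MaxPk p s k)) ∧
    (p = 2 → ∀ x y : List ℚ, dp p s x y = dist (pt s x) (pt s y)) := by
  obtain ⟨n, rfl⟩ : ∃ n, s = n + 2 := ⟨s - 2, by omega⟩
  refine ⟨?_, collapse_opt hp n, ?_, ?_⟩
  · obtain ⟨k1, h1⟩ := nearHard hp n
    obtain ⟨k2, h2⟩ := collapseQ hp n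
    exact ⟨max k1 k2, fun k hk => ⟨h1 k ((le_max_left _ _).trans hk), h2 k ((le_max_right _ _).trans hk)⟩⟩
  · intro r hr
    subst hr
    obtain ⟨k, h1, h2⟩ := decision hp n
    exact ⟨h2, k, h1⟩
  · intro h2 x y
    subst h2
    unfold dp pt
    rw [EuclideanSpace.dist_eq, Real.sqrt_eq_rpow]
    congr 1
    refine Finset.sum_congr rfl fun i _ => ?_
    rw [Real.dist_eq, ← Real.rpow_natCast]
    norm_num

end Pool.Agent.Results.MP_b24d90_lc.LpNormsNoFptas
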